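import Pool.Agent.Lib.H99E.Explicit

/-! # H99E, file ExplicitGen: the analytic end for any family of partial operations (MP_73a90e_al) -/

set_option autoImplicit false

namespace H99E

open Pool.H87G H38P

theorem T_gen_le {A : ℕ} (c T : ℕ → ℕ) (hc : ∀ i, c i ≤ A * (2 ^ i * 2 ^ (8 * Nat.sqrt i + 7)))
    (hT0 : T 0 ≤ A) (hT : ∀ i, T (i + 1) ≤ 2 * T i + c i) (i : ℕ) :
    T i ≤ A * (2 ^ i * (1 + i * 2 ^ (8 * Nat.sqrt i + 7))) := by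
  induction i with
  | zero => simpa using hT0
  | succ i ih =>
    have h1 := hc i
    have h2 : 2 ^ (8 * Nat.sqrt i + 7) ≤ 2 ^ (8 * Nat.sqrt (i + 1) + 7) :=
      Nat.pow_le_pow_right (by norm_num) (by
        have h : Nat.sqrt i ≤ Nat.sqrt (i + 1) := Nat.sqrt_le_sqrt (by omega)
        omega)
    obtain ⟨P, hP⟩ : ∃ P, P = 2 ^ (8 * Nat.sqrt i + 7) := ⟨_, rfl⟩
    obtain ⟨Q, hQ⟩ : ∃ Q, Q = 2 ^ (8 * Nat.sqrt (i + 1) + 7) := ⟨_, rfl⟩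
    rw [← hP] at ih h1 h2
    rw [← hQ] at h2 ⊢
    calc T (i + 1) ≤ 2 * T i + c i := hT i
      _ ≤ 2 * (A * (2 ^ i * (1 + i * P))) + A * (2 ^ i * P) := by omega
      _ ≤ 2 * (A * (2 ^ i * (1 + i * Q))) + A * (2 ^ i * Q) := by gcongr
      _ ≤ 2 * (A * (2 ^ i * (1 + i * Q))) + 2 * (A * (2 ^ i * Q)) := by omega
      _ = A * (2 ^ (i + 1) * (1 + (i + 1) * Q)) := by ring

theorem T_gen_le' {A : ℕ} (c T : ℕ → ℕ) (hc : ∀ i, c i ≤ A * (2 ^ i * 2 ^ (8 * Nat.sqrt i + 7)))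
    (hT0 : T 0 ≤ A) (hT : ∀ i, T (i + 1) ≤ 2 * T i + c i) (i : ℕ) :
    T i ≤ A * (2 ^ i * 2 ^ (10 * Nat.sqrt i + 7)) := by
  refine (T_gen_le c T hc hT0 hT i).trans (Nat.mul_le_mul_left _ (Nat.mul_le_mul_left _ ?_))
  obtain ⟨s, hs⟩ : ∃ s, s = Nat.sqrt i := ⟨_, rfl⟩
  rw [← hs]
  have h1 : i + 1 ≤ (s + 1) * (s + 1) := by
    rw [hs]
    exact Nat.lt_succ_sqrt i
  have h2 : s + 1 ≤ 2 ^ s := Nat.lt_two_pow_self
  have h3 : 1 ≤ 2 ^ (8 * s + 7) := Nat.one_le_pow _ _ (by norm_num)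
  calc 1 + i * 2 ^ (8 * s + 7) ≤ (i + 1) * 2 ^ (8 * s + 7) := by rw [add_mul]; omega
    _ ≤ (2 ^ s * 2 ^ s) * 2 ^ (8 * s + 7) :=
      Nat.mul_le_mul_right _ (h1.trans (Nat.mul_le_mul h2 h2))
    _ = 2 ^ (10 * s + 7) := by rw [← pow_add, ← pow_add]; congr 1; ring

/-- The final bound from the recursion `T (i + 1) ≤ 2 T i + c i`. -/
theorem explicit_gen (F : Set (POp Bool)) (A : ℕ) (c T : ℕ → ℕ)
    (hc : ∀ i, c i ≤ A * (2 ^ i * 2 ^ (8 * Nat.sqrt i + 7))) (hT0 : T 0 ≤ A)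
    (hT : ∀ i, T (i + 1) ≤ 2 * T i + c i) (hd : ∀ i n, n ≤ 2 ^ 2 ^ i → d F n ≤ T i) (n : ℕ) (hn : 2 ≤ n) :
    (d F n : ℝ) ≤ A * (2 ^ 29 * Real.logb 2 n * 2 ^ (10 * √(Real.logb 2 (Real.logb 2 n)))) := by
  obtain ⟨i, hi⟩ : ∃ i, i = Nat.clog 2 (Nat.clog 2 n) := ⟨_, rfl⟩
  have h1 : n ≤ 2 ^ 2 ^ i := by
    rw [hi]
    calc n ≤ 2 ^ Nat.clog 2 n := Nat.le_pow_clog (by norm_num) n
      _ ≤ 2 ^ 2 ^ Nat.clog 2 (Nat.clog 2 n) :=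
        Nat.pow_le_pow_right (by norm_num) (Nat.le_pow_clog (by norm_num) _)
  have h2 : d F n ≤ A * (2 ^ i * 2 ^ (10 * Nat.sqrt i + 7)) := (hd i n h1).trans (T_gen_le' c T hc hT0 hT i)
  have h3 := two_pow_clog_le n hn
  rw [← hi] at h3
  have hl1 : 1 ≤ Real.logb 2 n := by
    rw [Real.le_logb_iff_rpow_le (by norm_num) (by exact_mod_cast (by omega : 0 < n)), Real.rpow_one]
    exact_mod_cast hn
  obtain ⟨l, hl⟩ : ∃ l, l = Real.logb 2 (n : ℝ) := ⟨_, rfl⟩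
  rw [← hl] at h3 hl1 ⊢
  have hLL : 0 ≤ Real.logb 2 l := Real.logb_nonneg (by norm_num) hl1
  have h4 : (i : ℝ) ≤ 2 + Real.logb 2 l := by
    have h5 : Real.logb 2 ((2 : ℝ) ^ i) ≤ Real.logb 2 (4 * l) :=
      Real.logb_le_logb_of_le (by norm_num) (by positivity) h3
    rw [Real.logb_pow, Real.logb_self_eq_one (by norm_num), mul_one,
      Real.logb_mul (by norm_num) (by linarith)] at h5
    have h6 : Real.logb 2 4 = 2 := by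
      rw [show (4 : ℝ) = 2 ^ (2 : ℕ) by norm_num, Real.logb_pow, Real.logb_self_eq_one (by norm_num)]
      norm_num
    linarith
  have h5 : ((Nat.sqrt i : ℕ) : ℝ) ≤ 2 + √(Real.logb 2 l) := by
    have h6 : ((Nat.sqrt i : ℕ) : ℝ) ^ 2 ≤ i := by
      have := Nat.sqrt_le i
      have h7 : ((Nat.sqrt i * Nat.sqrt i : ℕ) : ℝ) ≤ i := by exact_mod_cast this
      push_cast at h7
      nlinarith
    have h7 : 0 ≤ √(Real.logb 2 l) := Real.sqrt_nonneg _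
    have h8 : √(Real.logb 2 l) ^ 2 = Real.logb 2 l := Real.sq_sqrt hLL
    have h9 : ((Nat.sqrt i : ℕ) : ℝ) ^ 2 ≤ (2 + √(Real.logb 2 l)) ^ 2 := by nlinarith
    exact (pow_le_pow_iff_left₀ (Nat.cast_nonneg _) (by linarith) two_ne_zero).1 h9
  have h6 : (2 : ℝ) ^ (10 * Nat.sqrt i + 7) ≤ 2 ^ 27 * 2 ^ (10 * √(Real.logb 2 l)) := by
    rw [← Real.rpow_natCast, ← Real.rpow_natCast 2 27, ← Real.rpow_add (by norm_num)]
    refine Real.rpow_le_rpow_of_exponent_le (by norm_num) ?_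
    push_cast
    linarith
  calc (d F n : ℝ) ≤ (A : ℝ) * ((2 : ℝ) ^ i * 2 ^ (10 * Nat.sqrt i + 7)) := by exact_mod_cast h2
    _ ≤ A * ((4 * l) * (2 ^ 27 * 2 ^ (10 * √(Real.logb 2 l)))) :=
      mul_le_mul_of_nonneg_left (mul_le_mul h3 h6 (by positivity) (by linarith)) (Nat.cast_nonneg A)
    _ = A * (2 ^ 29 * l * 2 ^ (10 * √(Real.logb 2 l))) := by ring

end H99E
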