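import Mathlib

/-! # H99E, file Bi: biadditive relations and the ring of sets, in mixed characteristic (MP_73a90e_al) -/

set_option autoImplicit false

namespace H99E

/-- The sections of the relation `R` are subgroups. -/
structure Bi {P Q : Type} [AddCommGroup P] [AddCommGroup Q] (R : P → Q → Prop) : Prop where
  subl : ∀ p p' q, R p q → R p' q → R (p - p') q
  subr : ∀ p q q', R p q → R p q' → R p (q - q')
  zerol : ∀ q, R 0 q
  zeror : ∀ p, R p 0

section

variable {P Q : Type} [AddCommGroup P] [AddCommGroup Q] {R : P → Q → Prop}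

/-- the left section -/
def Bi.L (h : Bi R) (q : Q) : AddSubgroup P where
  carrier := {p | R p q}
  zero_mem' := h.zerol q
  neg_mem' := fun {p} hp => by
    have := h.subl 0 p q (h.zerol q) hp
    rwa [zero_sub] at this
  add_mem' := fun {p p'} hp hp' => by
    have h1 := h.subl 0 p' q (h.zerol q) hp'
    have h2 := h.subl p (0 - p') q hp h1
    rwa [zero_sub, sub_neg_eq_add] at h2

/-- the right section -/
def Bi.R' (h : Bi R) (p : P) : AddSubgroup Q where
  carrier := {q | R p q}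
  zero_mem' := h.zeror p
  neg_mem' := fun {q} hq => by
    have := h.subr p 0 q (h.zeror p) hq
    rwa [zero_sub] at this
  add_mem' := fun {q q'} hq hq' => by
    have h1 := h.subr p 0 q' (h.zeror p) hq'
    have h2 := h.subr p q (0 - q') hq h1
    rwa [zero_sub, sub_neg_eq_add] at h2

theorem Bi.addl (h : Bi R) {p p' : P} {q : Q} (h1 : R p q) (h2 : R p' q) : R (p + p') q := (h.L q).add_mem h1 h2

theorem Bi.addr (h : Bi R) {p : P} {q q' : Q} (h1 : R p q) (h2 : R p q') : R p (q + q') := (h.R' p).add_mem h1 h2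

/-- The gadget in mixed characteristic. -/
theorem Bi.gadget (h : Bi R) (h3 : ∀ p : P, p + p + p = 0) (h2 : ∀ q : Q, q + q = 0) {p1 p2 p3 : P} {q1 q2 q3 : Q}
    (h12 : R p1 q2) (h13 : R p1 q3) (h21 : R p2 q1) (h23 : R p2 q3) (h31 : R p3 q1) (h32 : R p3 q2)
    (hS : R (p1 + p2) (q1 + q2)) (hT : R (p1 + p3) (q1 + q3)) : R p1 q1 := by
  have a12 : R (p1 + p2 + p3) (q1 + q2) := h.addl hS (h.addr h31 h32)
  have a13 : R (p1 + p3 + p2) (q1 + q3) := h.addl hT (h.addr h21 h23)
  have a23 : R (p1 + p2 + p3) (q2 + q3) := by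
    have e1 : p1 + p3 + p2 = p1 + p2 + p3 := by abel
    rw [e1] at a13
    have h' := h.addr a12 a13
    have e2 : q1 + q2 + (q1 + q3) = (q1 + q1) + (q2 + q3) := by abel
    rwa [e2, h2, zero_add] at h'
  have b23 : R (p2 + p3) (q2 + q3) := by
    have h' := h.subl _ _ _ a23 (h.addr h12 h13)
    have e1 : p1 + p2 + p3 - p1 = p2 + p3 := by abel
    rwa [e1] at h'
  have c12 : R (p1 + p2) (q1 + q2 + q3) := h.addr hS (h.addl h13 h23)
  have c13 : R (p1 + p3) (q1 + q2 + q3) := by
    have h' := h.addr hT (h.addl h12 h32)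
    have e1 : q1 + q3 + q2 = q1 + q2 + q3 := by abel
    rwa [e1] at h'
  have c23 : R (p2 + p3) (q1 + q2 + q3) := by
    have h' := h.addr b23 (h.addl h21 h31)
    have e1 : q2 + q3 + q1 = q1 + q2 + q3 := by abel
    rwa [e1] at h'
  have c1 : R p1 (q1 + q2 + q3) := by
    have h' := h.subl _ _ _ c23 (h.addl c12 c13)
    have e1 : p2 + p3 - (p1 + p2 + (p1 + p3)) = p1 - (p1 + p1 + p1) := by abel
    rwa [e1, h3, sub_zero] at h'
  have h' := h.subr _ _ _ c1 (h.addr h12 h13)
  have e1 : q1 + q2 + q3 - (q2 + q3) = q1 := by abel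
  rwa [e1] at h'

variable {M : Type} [DecidableEq M] {p : M → P} {q : M → Q}

omit [DecidableEq M] in
theorem Bi.cross (h : Bi R) (hc : ∀ m l, m ≠ l → R (p m) (q l)) {S T : Finset M} (hST : Disjoint S T) :
    R (∑ m ∈ S, p m) (∑ m ∈ T, q m) := by
  have h1 : ∀ l ∈ T, R (∑ m ∈ S, p m) (q l) := by
    intro l hl
    exact (h.L (q l)).sum_mem fun m hm => hc m l fun e => Finset.disjoint_left.1 hST hm (e ▸ hl)
  exact (h.R' _).sum_mem fun l hl => h1 l hl

theorem Bi.inter (h : Bi R) (h3 : ∀ p : P, p + p + p = 0) (h2 : ∀ q : Q, q + q = 0)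
    (hc : ∀ m l, m ≠ l → R (p m) (q l)) {S T : Finset M} (hS : R (∑ m ∈ S, p m) (∑ m ∈ S, q m))
    (hT : R (∑ m ∈ T, p m) (∑ m ∈ T, q m)) : R (∑ m ∈ S ∩ T, p m) (∑ m ∈ S ∩ T, q m) := by
  have d12 : Disjoint (S ∩ T) (S \ T) := by
    rw [Finset.disjoint_left]
    intro x hx hy
    exact (Finset.mem_sdiff.1 hy).2 (Finset.mem_inter.1 hx).2
  have d13 : Disjoint (S ∩ T) (T \ S) := by
    rw [Finset.disjoint_left]
    intro x hx hy
    exact (Finset.mem_sdiff.1 hy).2 (Finset.mem_inter.1 hx).1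
  have d23 : Disjoint (S \ T) (T \ S) := by
    rw [Finset.disjoint_left]
    intro x hx hy
    exact (Finset.mem_sdiff.1 hx).2 (Finset.mem_sdiff.1 hy).1
  have uS : (S ∩ T) ∪ (S \ T) = S := by
    ext x
    simp only [Finset.mem_union, Finset.mem_inter, Finset.mem_sdiff]
    tauto
  have uT : (S ∩ T) ∪ (T \ S) = T := by
    ext x
    simp only [Finset.mem_union, Finset.mem_inter, Finset.mem_sdiff]
    tauto
  have eS1 : ∑ m ∈ S, p m = ∑ m ∈ S ∩ T, p m + ∑ m ∈ S \ T, p m := by rw [← Finset.sum_union d12, uS]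
  have eS2 : ∑ m ∈ S, q m = ∑ m ∈ S ∩ T, q m + ∑ m ∈ S \ T, q m := by rw [← Finset.sum_union d12, uS]
  have eT1 : ∑ m ∈ T, p m = ∑ m ∈ S ∩ T, p m + ∑ m ∈ T \ S, p m := by rw [← Finset.sum_union d13, uT]
  have eT2 : ∑ m ∈ T, q m = ∑ m ∈ S ∩ T, q m + ∑ m ∈ T \ S, q m := by rw [← Finset.sum_union d13, uT]
  rw [eS1, eS2] at hS
  rw [eT1, eT2] at hT
  exact h.gadget h3 h2 (h.cross hc d12) (h.cross hc d13) (h.cross hc d12.symm) (h.cross hc d23) (h.cross hc d13.symm)
    (h.cross hc d23.symm) hS hT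

theorem Bi.compl [Fintype M] (h : Bi R) (hc : ∀ m l, m ≠ l → R (p m) (q l)) (h0 : R (∑ m, p m) (∑ m, q m))
    {S : Finset M} (hS : R (∑ m ∈ S, p m) (∑ m ∈ S, q m)) : R (∑ m ∈ Sᶜ, p m) (∑ m ∈ Sᶜ, q m) := by
  have d : Disjoint S Sᶜ := disjoint_compl_right
  have e1 : ∑ m, p m = ∑ m ∈ S, p m + ∑ m ∈ Sᶜ, p m := (Finset.sum_add_sum_compl S p).symm
  have e2 : ∑ m, q m = ∑ m ∈ S, q m + ∑ m ∈ Sᶜ, q m := (Finset.sum_add_sum_compl S q).symm
  rw [e1, e2] at h0
  have h1 : R (∑ m ∈ Sᶜ, p m) (∑ m ∈ S, q m + ∑ m ∈ Sᶜ, q m) := by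
    have h' := h.subl _ _ _ h0 (h.addr hS (h.cross hc d))
    rwa [add_sub_cancel_left] at h'
  have h' := h.subr _ _ _ h1 (h.cross hc d.symm)
  rwa [add_sub_cancel_left] at h'

/-- Logarithmically many relations between sums give all relations. -/
theorem Bi.ring_main [Fintype M] (h : Bi R) (h3 : ∀ p : P, p + p + p = 0) (h2 : ∀ q : Q, q + q = 0)
    (hc : ∀ m l, m ≠ l → R (p m) (q l)) {b : ℕ} (e : M → Fin b → Bool) (he : Function.Injective e)
    (h0 : R (∑ m, p m) (∑ m, q m))
    (hb : ∀ t, R (∑ m with e m t = true, p m) (∑ m with e m t = true, q m)) (m : M) : R (p m) (q m) := by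
  have g2 : ∀ t, ∀ c : Bool, R (∑ l with e l t = c, p l) (∑ l with e l t = c, q l) := by
    intro t c
    cases c
    · have h' := h.compl hc h0 (hb t)
      have e1 : (Finset.univ.filter fun l => e l t = true)ᶜ = Finset.univ.filter fun l => e l t = false := by
        ext x
        simp
      rwa [e1] at h'
    · exact hb t
  have key : ∀ S : Finset (Fin b), R (∑ l with ∀ t ∈ S, e l t = e m t, p l) (∑ l with ∀ t ∈ S, e l t = e m t, q l) := by
    intro S
    induction S using Finset.induction with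
    | empty => simpa using h0
    | insert t S _ ih =>
      have h' := h.inter h3 h2 hc (g2 t (e m t)) ih
      have e1 : (Finset.univ.filter fun l => e l t = e m t) ∩ (Finset.univ.filter fun l => ∀ t ∈ S, e l t = e m t) =
          Finset.univ.filter fun l => ∀ t' ∈ insert t S, e l t' = e m t' := by
        ext x
        simp
      rwa [e1] at h'
  have h' := key Finset.univ
  have e1 : (Finset.univ.filter fun l => ∀ t ∈ (Finset.univ : Finset (Fin b)), e l t = e m t) = {m} := by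
    ext x
    simp only [Finset.mem_filter, Finset.mem_univ, true_and, true_implies, Finset.mem_singleton]
    constructor
    · intro h
      exact he (funext h)
    · rintro rfl _
      rfl
  rwa [e1, Finset.sum_singleton, Finset.sum_singleton] at h'

end

end H99E
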