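import Pool.Agent.Lib.H99E.Ring
import Pool.Agent.Lib.H38P.Main

/-! # H99E, file Bits: the ring lemma for families of Boolean functions (MP_73a90e_al) -/

set_option autoImplicit false

namespace H99E

open H38P

theorem two_eq_zero (Ω : Type) : (2 : Ω → Bool) = 0 := by
  have h : (2 : Ω → Bool) = 1 + 1 := by norm_num
  rw [h]
  funext z
  rfl

theorem mul_self_fun (Ω : Type) (f : Ω → Bool) : f * f = f := by
  funext z
  show (f z && f z) = f z
  cases f z <;> rfl

theorem neg_fun (Ω : Type) (f : Ω → Bool) : -f = f := by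
  have h : f + f = 0 := by
    have := two_eq_zero Ω
    rw [← two_mul, this, zero_mul]
  exact neg_eq_of_add_eq_zero_left h

/-- a closed family as a subgroup -/
def grp {Ω : Type} {V : Set (Ω → Bool)} (hV : Ok V) : AddSubgroup (Ω → Bool) where
  carrier := V
  add_mem' := fun {f g} hf hg => hV.add f g hf hg
  zero_mem' := ok_zero hV
  neg_mem' := fun {f} hf => by
    rw [neg_fun]
    exact hf

theorem grp_tri {Ω : Type} {V : Set (Ω → Bool)} (hV : Ok V) : Tri (grp hV) :=
  fun f g h hf hg hh h1 h2 h3 => hV.tri f g h hf hg hh h1 h2 h3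

/-- the functions of `x` -/
def sub {Ω X : Type} (x : Ω → X) : Subring (Ω → Bool) where
  carrier := {f | ∃ F : X → Bool, f = fun z => F (x z)}
  mul_mem' := by
    rintro _ _ ⟨F, rfl⟩ ⟨G, rfl⟩
    exact ⟨fun p => F p && G p, rfl⟩
  one_mem' := ⟨fun _ => true, rfl⟩
  add_mem' := by
    rintro _ _ ⟨F, rfl⟩ ⟨G, rfl⟩
    exact ⟨fun p => xor (F p) (G p), rfl⟩
  zero_mem' := ⟨fun _ => false, rfl⟩
  neg_mem' := by
    rintro _ ⟨F, rfl⟩
    rw [neg_fun]
    exact ⟨F, rfl⟩

/-- Logarithmically many products of sums of bits give the products of bits. -/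
theorem bits {Ω M : Type} [Fintype M] [DecidableEq M] {V : Set (Ω → Bool)} (hV : Ok V) {a b : Ω → M → Bool}
    (ha : Kn V a) (hb : Kn V b) (hc : ∀ m l, m ≠ l → (fun z => a z m && b z l) ∈ V) {n : ℕ}
    (e : M → Fin n → Bool) (he : Function.Injective e) (h0 : (fun z => (∑ m, a z m) && ∑ m, b z m) ∈ V)
    (hp : ∀ p, (fun z => (∑ m with e m p = true, a z m) && ∑ m with e m p = true, b z m) ∈ V) (m : M) :
    (fun z => a z m && b z m) ∈ V := by
  have hs : ∀ S : Finset M, ∀ w : Ω → M → Bool, (∑ m ∈ S, fun z => w z m) = fun z => ∑ m ∈ S, w z m := by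
    intro S w
    funext z
    rw [Finset.sum_apply]
  have hmul : ∀ f g : Ω → Bool, f * g = fun z => f z && g z := fun _ _ => rfl
  have h := ring_main (R := Ω → Bool) (V := grp hV) (M := M) (u := fun m z => a z m) (v := fun m z => b z m)
    (two_eq_zero Ω) (mul_self_fun Ω) (grp_tri hV) (A := sub a) (B := sub b)
    (by
      rintro _ ⟨F, rfl⟩
      exact ha F)
    (by
      rintro _ ⟨F, rfl⟩
      exact hb F)
    (fun m => ⟨fun p => p m, rfl⟩) (fun m => ⟨fun p => p m, rfl⟩) (fun m l hml => hc m l hml) e he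
    (by
      rw [hs, hs, hmul]
      exact h0)
    (by
      intro p
      rw [hs, hs, hmul]
      exact hp p) m
  exact h

end H99E
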