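import Pool.Agent.Lib.H38P.Main

/-! # H99E: the analytic end of the bound `d (n) ≤ K (log n) ^ (1 + ε)` (MP_73a90e_al) -/

set_option autoImplicit false

namespace H99E

open Pool.H87G H38P

/-- the number of generators -/
def TT (c : ℕ → ℕ) : ℕ → ℕ
  | 0 => 1
  | i + 1 => 2 * TT c i + c i

theorem genN_TT (c : ℕ → ℕ) (h : ∀ i, CrossN (2 ^ 2 ^ i) (c i)) (i : ℕ) : GenN (2 ^ 2 ^ i) (TT c i) := by
  induction i with
  | zero => simpa [TT] using genN_two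
  | succ i ih =>
    exact genN_sq ih (h i) (le_of_eq (by rw [← pow_add, pow_succ]; congr 1; ring))

theorem pow_clog_le {g m : ℕ} (hg : 2 ≤ g) (hm : 1 ≤ m) : g ^ Nat.clog g m ≤ g * m := by
  rcases Nat.lt_or_ge 1 m with h | h
  · have h4 := Nat.pow_pred_clog_lt_self (b := g) (by omega) h
    have h5 : 1 ≤ Nat.clog g m := Nat.clog_pos (by omega) h
    have h6 : g ^ Nat.clog g m = g * g ^ (Nat.clog g m).pred := by
      rw [← pow_succ', Nat.pred_eq_sub_one, Nat.sub_add_cancel h5]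
    rw [h6]
    exact Nat.mul_le_mul_left g h4.le
  · have h4 : m = 1 := by omega
    subst h4
    simp
    omega

theorem TT_le {c : ℕ → ℕ} {G β K : ℝ} (hK : 1 ≤ K) (hβ : 0 ≤ β) (hc : ∀ i, (c i : ℝ) ≤ G * β ^ i)
    (hG : G ≤ K * (β - 2)) (i : ℕ) : (TT c i : ℝ) ≤ K * β ^ i := by
  induction i with
  | zero => simpa [TT] using hK
  | succ i ih =>
    have h7 : 0 ≤ β ^ i := by positivity
    have h8 : (TT c (i + 1) : ℝ) = 2 * TT c i + c i := by simp [TT]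
    have h9 : G * β ^ i ≤ K * (β - 2) * β ^ i := mul_le_mul_of_nonneg_right hG h7
    rw [h8]
    calc (2 : ℝ) * TT c i + c i ≤ 2 * (K * β ^ i) + K * (β - 2) * β ^ i := by linarith [hc i]
      _ = K * β ^ (i + 1) := by ring

theorem two_pow_clog_le (n : ℕ) (hn : 2 ≤ n) :
    ((2 : ℝ) ^ Nat.clog 2 (Nat.clog 2 n)) ≤ 4 * Real.logb 2 n := by
  obtain ⟨i, hi⟩ : ∃ i, i = Nat.clog 2 (Nat.clog 2 n) := ⟨_, rfl⟩
  rw [← hi]
  have hl : 1 ≤ Nat.log 2 n := Nat.log_pos (by norm_num) hn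
  have hc : Nat.clog 2 n ≤ 2 * Nat.log 2 n := H3 n hn
  have hc1 : 1 ≤ Nat.clog 2 n := Nat.clog_pos (by norm_num) hn
  have h3 : 2 ^ i ≤ 2 * Nat.clog 2 n := by
    rw [hi]
    exact pow_clog_le le_rfl hc1
  have h5 : ((2 ^ i : ℕ) : ℝ) ≤ ((4 * Nat.log 2 n : ℕ) : ℝ) := by
    exact_mod_cast (by omega : 2 ^ i ≤ 4 * Nat.log 2 n)
  have h6 : ((Nat.log 2 n : ℕ) : ℝ) ≤ Real.logb 2 n := Real.natLog_le_logb n 2
  push_cast at h5
  linarith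

/-- From block recursion with `N` products for `g` letters, `N ≤ g ^ (1 + ε)`, to the bound of `d`. -/
theorem finish (g N : ℕ) (hg : 2 ≤ g) (ε : ℝ) (hε : 0 < ε) (hN : (N : ℝ) ≤ (g : ℝ) ^ (1 + ε))
    (hc : ∀ j, CrossN (2 ^ g ^ j) (N ^ j)) :
    ∃ K : ℝ, ∀ n : ℕ, 2 ≤ n → (d Alg n : ℝ) ≤ K * Real.logb 2 n ^ (1 + ε) := by
  obtain ⟨c, hcdef⟩ : ∃ c : ℕ → ℕ, ∀ i, c i = N ^ Nat.clog g (2 ^ i) := ⟨_, fun _ => rfl⟩
  have hcross : ∀ i, CrossN (2 ^ 2 ^ i) (c i) := by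
    intro i
    rw [hcdef]
    exact crossN_le (hc _) (Nat.pow_le_pow_right (by norm_num) (Nat.le_pow_clog (by omega) _))
  obtain ⟨β, hβ⟩ : ∃ β : ℝ, β = (2 : ℝ) ^ (1 + ε) := ⟨_, rfl⟩
  obtain ⟨G, hG⟩ : ∃ G : ℝ, G = (g : ℝ) ^ (1 + ε) := ⟨_, rfl⟩
  have hg0 : (0 : ℝ) ≤ g := Nat.cast_nonneg g
  have hG0 : 0 ≤ G := by rw [hG]; exact Real.rpow_nonneg hg0 _
  have hβ2 : 2 < β := by
    rw [hβ]
    calc (2 : ℝ) = 2 ^ (1 : ℝ) := by rw [Real.rpow_one]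
      _ < 2 ^ (1 + ε) := Real.rpow_lt_rpow_of_exponent_lt (by norm_num) (by linarith)
  have hci : ∀ i, (c i : ℝ) ≤ G * β ^ i := by
    intro i
    have h1 : (N : ℝ) ^ Nat.clog g (2 ^ i) ≤ ((g : ℝ) ^ (1 + ε)) ^ Nat.clog g (2 ^ i) :=
      pow_le_pow_left₀ (Nat.cast_nonneg N) hN _
    have h2 : ((g : ℝ) ^ (1 + ε)) ^ Nat.clog g (2 ^ i) = ((g : ℝ) ^ Nat.clog g (2 ^ i)) ^ (1 + ε) := by
      rw [← Real.rpow_natCast, ← Real.rpow_natCast, ← Real.rpow_mul hg0, ← Real.rpow_mul hg0, mul_comm (1 + ε)]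
    have h3 : ((g : ℝ) ^ Nat.clog g (2 ^ i)) ≤ g * 2 ^ i := by
      exact_mod_cast pow_clog_le hg (Nat.one_le_two_pow)
    have h4 : ((g : ℝ) ^ Nat.clog g (2 ^ i)) ^ (1 + ε) ≤ (g * 2 ^ i) ^ (1 + ε) :=
      Real.rpow_le_rpow (by positivity) h3 (by linarith)
    have h5 : ((g : ℝ) * 2 ^ i) ^ (1 + ε) = G * β ^ i := by
      rw [Real.mul_rpow hg0 (by positivity), hG, hβ, ← Real.rpow_natCast, ← Real.rpow_natCast,
        ← Real.rpow_mul (by norm_num), ← Real.rpow_mul (by norm_num), mul_comm (1 + ε)]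
    rw [hcdef]
    push_cast
    linarith
  obtain ⟨K, hK⟩ : ∃ K : ℝ, K = max 1 (G / (β - 2)) := ⟨_, rfl⟩
  have hK1 : 1 ≤ K := by rw [hK]; exact le_max_left _ _
  have hGK : G ≤ K * (β - 2) := by
    rw [← div_le_iff₀ (by linarith), hK]
    exact le_max_right _ _
  refine ⟨K * 4 ^ (1 + ε), fun n hn => ?_⟩
  have h1 : n ≤ 2 ^ 2 ^ Nat.clog 2 (Nat.clog 2 n) := by
    calc n ≤ 2 ^ Nat.clog 2 n := Nat.le_pow_clog (by norm_num) n
      _ ≤ 2 ^ 2 ^ Nat.clog 2 (Nat.clog 2 n) :=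
        Nat.pow_le_pow_right (by norm_num) (Nat.le_pow_clog (by norm_num) _)
  have h2 : d Alg n ≤ TT c (Nat.clog 2 (Nat.clog 2 n)) := d_le (genN_le (genN_TT c hcross _) h1)
  have hl0 : 0 ≤ Real.logb 2 n := Real.logb_nonneg (by norm_num) (by exact_mod_cast (by omega : 1 ≤ n))
  have h3 := two_pow_clog_le n hn
  obtain ⟨i, hi⟩ : ∃ i, i = Nat.clog 2 (Nat.clog 2 n) := ⟨_, rfl⟩
  rw [← hi] at h2 h3
  calc (d Alg n : ℝ) ≤ TT c i := by exact_mod_cast h2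
    _ ≤ K * β ^ i := TT_le hK1 (by linarith) hci hGK i
    _ = K * ((2 : ℝ) ^ i) ^ (1 + ε) := by
      rw [hβ, ← Real.rpow_natCast, ← Real.rpow_natCast, ← Real.rpow_mul (by norm_num),
        ← Real.rpow_mul (by norm_num), mul_comm (1 + ε)]
    _ ≤ K * (4 * Real.logb 2 n) ^ (1 + ε) := by
      have := Real.rpow_le_rpow (by positivity) h3 (by linarith : (0 : ℝ) ≤ 1 + ε)
      exact mul_le_mul_of_nonneg_left this (by linarith)
    _ = K * 4 ^ (1 + ε) * Real.logb 2 n ^ (1 + ε) := by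
      rw [Real.mul_rpow (by norm_num) hl0, mul_assoc]

/-- The choice of the grid. -/
theorem choose_grid (ε : ℝ) (hε : 0 < ε) : ∃ C k : ℕ, 2 ≤ C ∧ 1 ≤ k ∧
    (((2 * C) ^ k * (k * C ^ 2 + 1) * (k * Nat.clog 2 C + 2) : ℕ) : ℝ) ≤ ((C ^ k : ℕ) : ℝ) ^ (1 + ε) := by
  obtain ⟨c, hc⟩ := exists_nat_ge (2 / ε + 1)
  have hdiv : 0 < 2 / ε := by positivity
  have hc1 : (1 : ℝ) < c := by linarith
  have hc1' : 1 < c := by exact_mod_cast hc1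
  have hcε : 2 ≤ c * ε := by
    have : 2 / ε ≤ c := by linarith
    rwa [div_le_iff₀ hε] at this
  obtain ⟨C, hC⟩ : ∃ C : ℕ, C = 2 ^ c := ⟨_, rfl⟩
  have hC2 : 2 ≤ C := by
    rw [hC]
    calc 2 = 2 ^ 1 := rfl
      _ ≤ 2 ^ c := Nat.pow_le_pow_right (by norm_num) (by omega)
  have hclog : Nat.clog 2 C = c := by
    rw [hC]
    exact Nat.clog_pow 2 c (by norm_num)
  -- the growth of the polynomial factor
  obtain ⟨M, hM⟩ : ∃ M : ℝ, M = ((C : ℝ) ^ 2 + 1) * (c + 2) := ⟨_, rfl⟩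
  have hM0 : 0 < M := by rw [hM]; positivity
  have ht := tendsto_pow_const_div_const_pow_of_one_lt 2 (r := (2 : ℝ)) (by norm_num)
  have hev := (ht.eventually (gt_mem_nhds (show (0 : ℝ) < 1 / M by positivity))).and
    (Filter.eventually_ge_atTop 1)
  obtain ⟨k, hk, hk1⟩ := hev.exists
  refine ⟨C, k, hC2, hk1, ?_⟩
  have hk1' : (1 : ℝ) ≤ k := by exact_mod_cast hk1
  have h2k : (0 : ℝ) < 2 ^ k := by positivity
  have hk' : M * (k : ℝ) ^ 2 ≤ 2 ^ k := by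
    rw [div_lt_div_iff₀ h2k hM0] at hk
    linarith
  rw [hclog]
  have hpoly : ((k : ℝ) * C ^ 2 + 1) * (k * c + 2) ≤ M * (k : ℝ) ^ 2 := by
    rw [hM]
    have h1 : (k : ℝ) * C ^ 2 + 1 ≤ (C ^ 2 + 1) * k := by nlinarith
    have h2 : (k : ℝ) * c + 2 ≤ (c + 2) * k := by nlinarith
    calc ((k : ℝ) * C ^ 2 + 1) * (k * c + 2) ≤ ((C ^ 2 + 1) * k) * ((c + 2) * k) :=
          mul_le_mul h1 h2 (by positivity) (by positivity)
      _ = ((C : ℝ) ^ 2 + 1) * (c + 2) * (k : ℝ) ^ 2 := by ring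
  have hC0 : (0 : ℝ) < C := by exact_mod_cast (by omega : 0 < C)
  have hCk : ((C : ℝ) ^ k) ^ (1 + ε) = (C : ℝ) ^ k * ((C : ℝ) ^ k) ^ ε := by
    rw [Real.rpow_add (by positivity), Real.rpow_one]
  have h4k : (4 : ℝ) ^ k ≤ ((C : ℝ) ^ k) ^ ε := by
    have e1 : ((C : ℝ) ^ k) ^ ε = ((2 : ℝ) ^ (c * ε)) ^ k := by
      rw [hC]
      push_cast
      rw [← Real.rpow_natCast, ← Real.rpow_natCast, ← Real.rpow_natCast, ← Real.rpow_mul (by norm_num),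
        ← Real.rpow_mul (by norm_num), ← Real.rpow_mul (by norm_num)]
      congr 1
      ring
    have e2 : (4 : ℝ) ≤ (2 : ℝ) ^ (c * ε) := by
      calc (4 : ℝ) = 2 ^ (2 : ℝ) := by norm_num
        _ ≤ 2 ^ (c * ε) := Real.rpow_le_rpow_of_exponent_le (by norm_num) hcε
    rw [e1]
    exact pow_le_pow_left₀ (by norm_num) e2 k
  push_cast
  rw [hCk]
  calc (2 * (C : ℝ)) ^ k * (k * C ^ 2 + 1) * (k * c + 2)
      = (C : ℝ) ^ k * (2 ^ k * ((k * C ^ 2 + 1) * (k * c + 2))) := by rw [mul_pow]; ring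
    _ ≤ (C : ℝ) ^ k * (2 ^ k * 2 ^ k) := by
        have := hpoly.trans hk'
        gcongr
    _ = (C : ℝ) ^ k * 4 ^ k := by
        rw [← mul_pow]
        norm_num
    _ ≤ (C : ℝ) ^ k * ((C : ℝ) ^ k) ^ ε := by gcongr

end H99E
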