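import Pool.Agent.Lib.H99E.Grid

/-! # H99E, file Explicit: `d (n) ≤ 2 ^ 29 * log n * 2 ^ (10 √(log log n))` (MP_73a90e_al) -/

set_option autoImplicit false

namespace H99E

open Pool.H87G H38P

theorem count_le (m : ℕ) : (2 * 2 ^ m) ^ m * (m * (2 ^ m) ^ 2 + 1) * (m * Nat.clog 2 (2 ^ m) + 1) * 1 ≤
    2 ^ (m * m + 6 * m) := by
  have h1 : m + 1 ≤ 2 ^ m := Nat.lt_two_pow_self
  have h0 : 1 ≤ (2 ^ m) ^ 2 := Nat.one_le_pow _ _ (by positivity)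
  have h2 : m * (2 ^ m) ^ 2 + 1 ≤ 2 ^ (3 * m) := by
    calc m * (2 ^ m) ^ 2 + 1 ≤ (m + 1) * (2 ^ m) ^ 2 := by rw [add_mul]; omega
      _ ≤ 2 ^ m * (2 ^ m) ^ 2 := Nat.mul_le_mul_right _ h1
      _ = 2 ^ (3 * m) := by rw [← pow_mul, ← pow_add]; congr 1; ring
  have h3 : m * m + 1 ≤ 2 ^ (2 * m) := by
    calc m * m + 1 ≤ (m + 1) * (m + 1) := by nlinarith
      _ ≤ 2 ^ m * 2 ^ m := Nat.mul_le_mul h1 h1
      _ = 2 ^ (2 * m) := by rw [← pow_add]; congr 1; ring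
  have h4 : (2 * 2 ^ m) ^ m = 2 ^ (m * m + m) := by
    rw [← pow_succ', ← pow_mul]
    congr 1
    ring
  rw [Nat.clog_pow 2 m (by norm_num), h4, mul_one]
  calc 2 ^ (m * m + m) * (m * (2 ^ m) ^ 2 + 1) * (m * m + 1) ≤ 2 ^ (m * m + m) * 2 ^ (3 * m) * 2 ^ (2 * m) :=
        Nat.mul_le_mul (Nat.mul_le_mul_left _ h2) h3
    _ = 2 ^ (m * m + 6 * m) := by rw [← pow_add, ← pow_add]; congr 1; ring

/-- the number of products for two words of `2 ^ i` bits -/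
def cc (i : ℕ) : ℕ := (2 * 2 ^ (Nat.sqrt i + 1)) ^ (Nat.sqrt i + 1) *
  ((Nat.sqrt i + 1) * (2 ^ (Nat.sqrt i + 1)) ^ 2 + 1) *
  ((Nat.sqrt i + 1) * Nat.clog 2 (2 ^ (Nat.sqrt i + 1)) + 1) * 1

theorem crossN_cc (i : ℕ) : CrossN (2 ^ 2 ^ i) (cc i) := by
  refine crossN_grid (by positivity) crossN_two ?_
  refine Nat.pow_le_pow_right (by norm_num) ?_
  rw [← pow_mul]
  exact Nat.pow_le_pow_right (by norm_num) (Nat.lt_succ_sqrt i).le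

theorem cc_le (i : ℕ) : cc i ≤ 2 ^ i * 2 ^ (8 * Nat.sqrt i + 7) := by
  refine (count_le (Nat.sqrt i + 1)).trans ?_
  rw [← pow_add]
  refine Nat.pow_le_pow_right (by norm_num) ?_
  have := Nat.sqrt_le i
  nlinarith

theorem TT_cc_le (i : ℕ) : TT cc i ≤ 2 ^ i * (1 + i * 2 ^ (8 * Nat.sqrt i + 7)) := by
  induction i with
  | zero => simp [TT]
  | succ i ih =>
    have h1 := cc_le i
    have h2 : 2 ^ (8 * Nat.sqrt i + 7) ≤ 2 ^ (8 * Nat.sqrt (i + 1) + 7) :=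
      Nat.pow_le_pow_right (by norm_num) (by
        have h : Nat.sqrt i ≤ Nat.sqrt (i + 1) := Nat.sqrt_le_sqrt (by omega)
        omega)
    obtain ⟨P, hP⟩ : ∃ P, P = 2 ^ (8 * Nat.sqrt i + 7) := ⟨_, rfl⟩
    obtain ⟨Q, hQ⟩ : ∃ Q, Q = 2 ^ (8 * Nat.sqrt (i + 1) + 7) := ⟨_, rfl⟩
    rw [← hP] at ih h1 h2
    rw [← hQ] at h2 ⊢
    have h3 : TT cc (i + 1) = 2 * TT cc i + cc i := rfl
    rw [h3]
    calc 2 * TT cc i + cc i ≤ 2 * (2 ^ i * (1 + i * P)) + 2 ^ i * P := by omega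
      _ ≤ 2 * (2 ^ i * (1 + i * Q)) + 2 ^ i * Q := by gcongr
      _ ≤ 2 * (2 ^ i * (1 + i * Q)) + 2 * (2 ^ i * Q) := by omega
      _ = 2 ^ (i + 1) * (1 + (i + 1) * Q) := by ring

theorem TT_cc_le' (i : ℕ) : TT cc i ≤ 2 ^ i * 2 ^ (10 * Nat.sqrt i + 7) := by
  refine (TT_cc_le i).trans (Nat.mul_le_mul_left _ ?_)
  obtain ⟨s, hs⟩ : ∃ s, s = Nat.sqrt i := ⟨_, rfl⟩
  rw [← hs]
  have h1 : i + 1 ≤ (s + 1) * (s + 1) := by
    rw [hs]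
    exact Nat.lt_succ_sqrt i
  have h2 : s + 1 ≤ 2 ^ s := Nat.lt_two_pow_self
  have h3 : 1 ≤ 2 ^ (8 * s + 7) := Nat.one_le_pow _ _ (by norm_num)
  calc 1 + i * 2 ^ (8 * s + 7) ≤ (i + 1) * 2 ^ (8 * s + 7) := by rw [add_mul]; omega
    _ ≤ (2 ^ s * 2 ^ s) * 2 ^ (8 * s + 7) :=
      Nat.mul_le_mul_right _ (h1.trans (Nat.mul_le_mul h2 h2))
    _ = 2 ^ (10 * s + 7) := by rw [← pow_add, ← pow_add]; congr 1; ring

theorem explicit (n : ℕ) (hn : 2 ≤ n) :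
    (d Alg n : ℝ) ≤ 2 ^ 29 * Real.logb 2 n * 2 ^ (10 * √(Real.logb 2 (Real.logb 2 n))) := by
  obtain ⟨i, hi⟩ : ∃ i, i = Nat.clog 2 (Nat.clog 2 n) := ⟨_, rfl⟩
  have h1 : n ≤ 2 ^ 2 ^ i := by
    rw [hi]
    calc n ≤ 2 ^ Nat.clog 2 n := Nat.le_pow_clog (by norm_num) n
      _ ≤ 2 ^ 2 ^ Nat.clog 2 (Nat.clog 2 n) :=
        Nat.pow_le_pow_right (by norm_num) (Nat.le_pow_clog (by norm_num) _)
  have h2 : d Alg n ≤ 2 ^ i * 2 ^ (10 * Nat.sqrt i + 7) :=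
    (d_le (genN_le (genN_TT cc crossN_cc i) h1)).trans (TT_cc_le' i)
  have h3 := two_pow_clog_le n hn
  rw [← hi] at h3
  have hl1 : 1 ≤ Real.logb 2 n := by
    rw [Real.le_logb_iff_rpow_le (by norm_num) (by exact_mod_cast (by omega : 0 < n)), Real.rpow_one]
    exact_mod_cast hn
  obtain ⟨l, hl⟩ : ∃ l, l = Real.logb 2 (n : ℝ) := ⟨_, rfl⟩
  rw [← hl] at h3 hl1 ⊢
  have hLL : 0 ≤ Real.logb 2 l := Real.logb_nonneg (by norm_num) hl1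
  have h4 : (i : ℝ) ≤ 2 + Real.logb 2 l := by
    have h5 : Real.logb 2 ((2 : ℝ) ^ i) ≤ Real.logb 2 (4 * l) :=
      Real.logb_le_logb_of_le (by norm_num) (by positivity) h3
    rw [Real.logb_pow, Real.logb_self_eq_one (by norm_num), mul_one,
      Real.logb_mul (by norm_num) (by linarith)] at h5
    have h6 : Real.logb 2 4 = 2 := by
      rw [show (4 : ℝ) = 2 ^ (2 : ℕ) by norm_num, Real.logb_pow, Real.logb_self_eq_one (by norm_num)]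
      norm_num
    linarith
  have h5 : ((Nat.sqrt i : ℕ) : ℝ) ≤ 2 + √(Real.logb 2 l) := by
    have h6 : ((Nat.sqrt i : ℕ) : ℝ) ^ 2 ≤ i := by
      have := Nat.sqrt_le i
      have h7 : ((Nat.sqrt i * Nat.sqrt i : ℕ) : ℝ) ≤ i := by exact_mod_cast this
      push_cast at h7
      nlinarith
    have h7 : 0 ≤ √(Real.logb 2 l) := Real.sqrt_nonneg _
    have h8 : √(Real.logb 2 l) ^ 2 = Real.logb 2 l := Real.sq_sqrt hLL
    have h9 : ((Nat.sqrt i : ℕ) : ℝ) ^ 2 ≤ (2 + √(Real.logb 2 l)) ^ 2 := by nlinarith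
    exact (pow_le_pow_iff_left₀ (Nat.cast_nonneg _) (by linarith) two_ne_zero).1 h9
  have h6 : (2 : ℝ) ^ (10 * Nat.sqrt i + 7) ≤ 2 ^ 27 * 2 ^ (10 * √(Real.logb 2 l)) := by
    rw [← Real.rpow_natCast, ← Real.rpow_natCast 2 27, ← Real.rpow_add (by norm_num)]
    refine Real.rpow_le_rpow_of_exponent_le (by norm_num) ?_
    push_cast
    linarith
  calc (d Alg n : ℝ) ≤ (2 : ℝ) ^ i * 2 ^ (10 * Nat.sqrt i + 7) := by exact_mod_cast h2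
    _ ≤ (4 * l) * (2 ^ 27 * 2 ^ (10 * √(Real.logb 2 l))) :=
      mul_le_mul h3 h6 (by positivity) (by linarith)
    _ = 2 ^ 29 * l * 2 ^ (10 * √(Real.logb 2 l)) := by ring

end H99E
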