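import Pool.Agent.Lib.H99E.Bits
import Pool.Agent.Lib.H99E.End

/-! # H99E, file Grid: products of the letters of two words indexed by a grid (MP_73a90e_al)

The products `x_i y_j`, `i, j` in the grid `{0, …, C-1}^k`, are obtained in the order of `|i - j|²`: those with given
`s = i + j` and `r = |i - j|²` form a matching whose cross pairs are at smaller distance, so a logarithmic number of
products of sums gives all of them (`bits`). The number of pairs `(s, r)` is at most `(2 C)^k (k C² + 1)`. -/

set_option autoImplicit false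

namespace H99E

open Pool.H87G H38P

/-- square of the distance -/
def D {k C : ℕ} (i j : Fin k → Fin C) : ℤ := ∑ c, (((i c : ℕ) : ℤ) - ((j c : ℕ) : ℤ)) ^ 2

/-- the point `s - i` -/
def opp {k C : ℕ} (hC : 0 < C) (s : Fin k → ℕ) (i : Fin k → Fin C) : Fin k → Fin C :=
  fun c => ⟨(s c - i c) % C, Nat.mod_lt _ hC⟩

/-- `i` belongs to the class `(s, r)` -/
def Val {k C : ℕ} (hC : 0 < C) (s : Fin k → ℕ) (r : ℕ) (i : Fin k → Fin C) : Prop :=
  (∀ c, (i c : ℕ) + (opp hC s i c : ℕ) = s c) ∧ D i (opp hC s i) = (r : ℤ)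

theorem D_nonneg {k C : ℕ} (i j : Fin k → Fin C) : 0 ≤ D i j := Finset.sum_nonneg fun _ _ => sq_nonneg _

theorem D_le {k C : ℕ} (i j : Fin k → Fin C) : D i j ≤ (k * C ^ 2 : ℕ) := by
  have h : D i j ≤ ∑ _c : Fin k, ((C : ℤ) ^ 2) := by
    refine Finset.sum_le_sum fun c _ => ?_
    have h1 : ((i c : ℕ) : ℤ) < C := by exact_mod_cast (i c).2
    have h2 : ((j c : ℕ) : ℤ) < C := by exact_mod_cast (j c).2
    have h3 : (0 : ℤ) ≤ ((i c : ℕ) : ℤ) := by positivity
    have h4 : (0 : ℤ) ≤ ((j c : ℕ) : ℤ) := by positivity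
    have h5 : |((i c : ℕ) : ℤ) - ((j c : ℕ) : ℤ)| ≤ |(C : ℤ)| := by
      rw [abs_of_nonneg (a := (C : ℤ)) (by positivity), abs_le]
      constructor <;> linarith
    exact sq_le_sq.2 h5
  simpa using h

/-- Strict convexity: the cross pairs of a class are at smaller distance. -/
theorem D_cross {k C : ℕ} (hC : 0 < C) {s : Fin k → ℕ} {r : ℕ} {m l : Fin k → Fin C} (hm : Val hC s r m)
    (hl : Val hC s r l) (hml : m ≠ l) : D m (opp hC s l) < r := by
  obtain ⟨hm1, hm2⟩ := hm
  obtain ⟨hl1, hl2⟩ := hl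
  have em : ∀ c, ((opp hC s m c : ℕ) : ℤ) = (s c : ℤ) - ((m c : ℕ) : ℤ) := by
    intro c
    have := hm1 c
    have h : (((m c : ℕ) + (opp hC s m c : ℕ) : ℕ) : ℤ) = ((s c : ℕ) : ℤ) := by rw [this]
    push_cast at h
    linarith
  have el : ∀ c, ((opp hC s l c : ℕ) : ℤ) = (s c : ℤ) - ((l c : ℕ) : ℤ) := by
    intro c
    have := hl1 c
    have h : (((l c : ℕ) + (opp hC s l c : ℕ) : ℕ) : ℤ) = ((s c : ℕ) : ℤ) := by rw [this]
    push_cast at h
    linarith
  have key : 2 * D m (opp hC s l) = D m (opp hC s m) + D l (opp hC s l) - 2 * D m l := by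
    unfold D
    rw [Finset.mul_sum, Finset.mul_sum, ← Finset.sum_add_distrib, ← Finset.sum_sub_distrib]
    refine Finset.sum_congr rfl fun c _ => ?_
    rw [em, el]
    ring
  have hpos : 0 < D m l := by
    obtain ⟨c, hc⟩ := Function.ne_iff.1 hml
    refine Finset.sum_pos' (fun _ _ => sq_nonneg _) ⟨c, Finset.mem_univ _, ?_⟩
    have h1 : ((m c : ℕ) : ℤ) - ((l c : ℕ) : ℤ) ≠ 0 := by
      intro h
      apply hc
      apply Fin.ext
      have : ((m c : ℕ) : ℤ) = ((l c : ℕ) : ℤ) := by linarith
      exact_mod_cast this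
    positivity
  rw [hm2, hl2] at key
  linarith

theorem val_of {k C : ℕ} (hC : 0 < C) (i j : Fin k → Fin C) {r : ℕ} (hr : D i j = r) :
    opp hC (fun c => (i c : ℕ) + (j c : ℕ)) i = j ∧ Val hC (fun c => (i c : ℕ) + (j c : ℕ)) r i := by
  have h1 : opp hC (fun c => (i c : ℕ) + (j c : ℕ)) i = j := by
    funext c
    apply Fin.ext
    show ((i c : ℕ) + (j c : ℕ) - (i c : ℕ)) % C = j c
    rw [Nat.add_sub_cancel_left, Nat.mod_eq_of_lt (j c).2]
  refine ⟨h1, fun c => ?_, ?_⟩
  · rw [h1]
  · rw [h1]
    exact hr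

open Classical in
/-- the first factor -/
noncomputable def la {k C n : ℕ} (hC : 0 < C) (e : (Fin k → Fin C) → Fin n → Bool) (s : Fin k → ℕ) (r : ℕ)
    (o : Option (Fin n)) (w : (Fin k → Fin C) → Bool) : Bool :=
  ∑ m with (∀ p ∈ o, e m p = true), if Val hC s r m then w m else false

open Classical in
/-- the second factor -/
noncomputable def lb {k C n : ℕ} (hC : 0 < C) (e : (Fin k → Fin C) → Fin n → Bool) (s : Fin k → ℕ) (r : ℕ)
    (o : Option (Fin n)) (w : (Fin k → Fin C) → Bool) : Bool :=
  ∑ m with (∀ p ∈ o, e m p = true), if Val hC s r m then w (opp hC s m) else false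

theorem grid_bits {Ω : Type} {k C n : ℕ} (hC : 0 < C) {V : Set (Ω → Bool)} (hV : Ok V)
    {a b : Ω → (Fin k → Fin C) → Bool} (ha : Kn V a) (hb : Kn V b) (e : (Fin k → Fin C) → Fin n → Bool)
    (he : Function.Injective e)
    (h : ∀ (s : Fin k → Fin (2 * C)) (r : Fin (k * C ^ 2 + 1)) (o : Option (Fin n)),
      (fun z => la hC e (fun c => s c) r o (a z) && lb hC e (fun c => s c) r o (b z)) ∈ V)
    (i j : Fin k → Fin C) : (fun z => a z i && b z j) ∈ V := by
  classical
  have main : ∀ N : ℕ, ∀ i j : Fin k → Fin C, D i j = N → (fun z => a z i && b z j) ∈ V := by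
    intro N
    induction N using Nat.strong_induction_on with
    | _ N ih =>
      intro i j hN
      obtain ⟨hopp, hval⟩ := val_of hC i j hN
      obtain ⟨s, hs⟩ : ∃ s : Fin k → ℕ, s = fun c => (i c : ℕ) + (j c : ℕ) := ⟨_, rfl⟩
      rw [← hs] at hopp hval
      have hN' : N < k * C ^ 2 + 1 := by
        have h1 := D_le i j
        rw [hN] at h1
        have : N ≤ k * C ^ 2 := by exact_mod_cast h1
        omega
      have hsl : ∀ c, s c < 2 * C := by
        intro c
        rw [hs]
        have := (i c).2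
        have := (j c).2
        show (i c : ℕ) + (j c : ℕ) < 2 * C
        omega
      have hgen : ∀ o : Option (Fin n), (fun z => la hC e s N o (a z) && lb hC e s N o (b z)) ∈ V := by
        intro o
        exact h (fun c => ⟨s c, hsl c⟩) ⟨N, hN'⟩ o
      have ha' : Kn V fun z => (fun m => if Val hC s N m then a z m else false) :=
        kn_comp ha fun w m => if Val hC s N m then w m else false
      have hb' : Kn V fun z => (fun m => if Val hC s N m then b z (opp hC s m) else false) :=
        kn_comp hb fun w m => if Val hC s N m then w (opp hC s m) else false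
      have hcross : ∀ m l, m ≠ l → (fun z => (if Val hC s N m then a z m else false) &&
          (if Val hC s N l then b z (opp hC s l) else false)) ∈ V := by
        intro m l hml
        by_cases h1 : Val hC s N m
        · by_cases h2 : Val hC s N l
          · have h3 := D_cross hC h1 h2 hml
            obtain ⟨N', hN'⟩ : ∃ N' : ℕ, D m (opp hC s l) = N' := ⟨_, (Int.toNat_of_nonneg (D_nonneg _ _)).symm⟩
            have h4 : N' < N := by
              rw [hN'] at h3
              exact_mod_cast h3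
            have h5 := ih N' h4 _ _ hN'
            simpa only [h1, h2, if_true] using h5
          · have h3 : (fun z => (if Val hC s N m then a z m else false) &&
                (if Val hC s N l then b z (opp hC s l) else false)) = fun _ => false := by
              funext z
              simp only [h2, if_false, Bool.and_false]
            rw [h3]
            exact ok_zero hV
        · have h3 : (fun z => (if Val hC s N m then a z m else false) &&
              (if Val hC s N l then b z (opp hC s l) else false)) = fun _ => false := by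
            funext z
            simp only [h1, if_false, Bool.false_and]
          rw [h3]
          exact ok_zero hV
      have h0 := hgen none
      have hp := fun p => hgen (some p)
      have hres := bits hV ha' hb' hcross e he (by simpa [la, lb] using h0)
        (by
          intro p
          simpa [la, lb] using hp p) i
      simpa only [hval, if_true, hopp] using hres
  obtain ⟨N, hN⟩ : ∃ N : ℕ, D i j = N := ⟨_, (Int.toNat_of_nonneg (D_nonneg _ _)).symm⟩
  exact main N i j hN

theorem cross_grid {X I : Type} [Finite X] {k C n : ℕ} (hC : 0 < C) (e : (Fin k → Fin C) → Fin n → Bool)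
    (he : Function.Injective e) (h : Cross X I) :
    Cross ((Fin k → Fin C) → X) (((Fin k → Fin (2 * C)) × Fin (k * C ^ 2 + 1) × Option (Fin n)) × I) := by
  obtain ⟨u, v, huv⟩ := h
  refine ⟨fun p w => la hC e (fun c => p.1.1 c) p.1.2.1 p.1.2.2 (fun i => u p.2 (w i)),
    fun p w => lb hC e (fun c => p.1.1 c) p.1.2.1 p.1.2.2 (fun i => v p.2 (w i)),
    fun Ω V hV x y hx hy h => ?_⟩
  refine join hV hx hy fun i j => huv Ω V hV _ _ (kn_comp hx fun w => w i) (kn_comp hy fun w => w j) fun t => ?_
  have ha : Kn V fun z => (fun i => u t (x z i)) := kn_comp hx fun w i => u t (w i)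
  have hb : Kn V fun z => (fun i => v t (y z i)) := kn_comp hy fun w i => v t (w i)
  exact grid_bits hC hV ha hb e he (fun s r o => h ((s, r, o), t)) i j

theorem crossN_grid {N M c k C : ℕ} (hC : 0 < C) (h : CrossN N c) (hM : M ≤ N ^ C ^ k) :
    CrossN M ((2 * C) ^ k * (k * C ^ 2 + 1) * (k * Nat.clog 2 C + 1) * c) := by
  obtain ⟨I, hI, hc, h⟩ := h
  obtain ⟨e, he⟩ := inj_of_le (X := Fin (k * Nat.clog 2 C) → Bool) (Y := Fin k → Fin C) (by
    simp only [Fintype.card_fun, Fintype.card_fin, Fintype.card_bool]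
    rw [mul_comm k, pow_mul]
    exact Nat.pow_le_pow_left (Nat.le_pow_clog (by norm_num) C) k)
  obtain ⟨e', he'⟩ := inj_of_le (X := (Fin k → Fin C) → Fin N) (Y := Fin M) (by simpa using hM)
  refine ⟨((Fin k → Fin (2 * C)) × Fin (k * C ^ 2 + 1) × Option (Fin (k * Nat.clog 2 C))) × I, inferInstance, ?_,
    cross_emb (cross_grid hC e he h) e' he'⟩
  simp only [Fintype.card_prod, Fintype.card_fun, Fintype.card_fin, Fintype.card_option, hc]
  ring

theorem crossN_grid_pow {k C : ℕ} (hC : 0 < C) (j : ℕ) :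
    CrossN (2 ^ (C ^ k) ^ j) (((2 * C) ^ k * (k * C ^ 2 + 1) * (k * Nat.clog 2 C + 1)) ^ j) := by
  induction j with
  | zero => simpa using crossN_two
  | succ j ih =>
    have h := crossN_grid (k := k) hC ih (M := 2 ^ (C ^ k) ^ (j + 1)) (le_of_eq (by rw [pow_succ (C ^ k) j, pow_mul 2]))
    rw [pow_succ' ((2 * C) ^ k * (k * C ^ 2 + 1) * (k * Nat.clog 2 C + 1))]
    exact h

theorem main (ε : ℝ) (hε : 0 < ε) :
    ∃ K : ℝ, ∀ n : ℕ, 2 ≤ n → (d Alg n : ℝ) ≤ K * Real.logb 2 n ^ (1 + ε) := by
  obtain ⟨C, k, hC, hk, hN⟩ := choose_grid ε hε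
  have hg : 2 ≤ C ^ k := by
    calc 2 ≤ C := hC
      _ = C ^ 1 := (pow_one C).symm
      _ ≤ C ^ k := Nat.pow_le_pow_right (by omega) hk
  refine finish (C ^ k) ((2 * C) ^ k * (k * C ^ 2 + 1) * (k * Nat.clog 2 C + 1)) hg ε hε ?_
    (crossN_grid_pow (by omega))
  refine le_trans ?_ hN
  have h : (2 * C) ^ k * (k * C ^ 2 + 1) * (k * Nat.clog 2 C + 1) ≤
      (2 * C) ^ k * (k * C ^ 2 + 1) * (k * Nat.clog 2 C + 2) := Nat.mul_le_mul_left _ (by omega)
  exact_mod_cast h

end H99E
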