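import Pool.Agent.Lib.H38P.Base

/-! # H99E, file Ring: logarithmically many sums of products give the products (MP_73a90e_al) -/

set_option autoImplicit false

namespace H99E

open H38P

/-- closed under the partial triple product -/
def Tri {R : Type} [CommRing R] (V : AddSubgroup R) : Prop :=
  ∀ f g h : R, f ∈ V → g ∈ V → h ∈ V → f * g ∈ V → f * h ∈ V → g * h ∈ V → f * g * h ∈ V

/-- The gadget. -/
theorem gadget {R : Type} [CommRing R] (h2 : (2 : R) = 0) {V : AddSubgroup R} (ht : Tri V)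
    {a1 a2 a3 b1 b2 b3 : R} (hid : a2 * a2 = a2)
    (ha1 : a1 ∈ V) (ha2 : a2 ∈ V) (ha3 : a3 ∈ V) (ha12 : a1 * a2 ∈ V) (ha13 : a1 * a3 ∈ V) (ha23 : a2 * a3 ∈ V)
    (hb1 : b1 ∈ V) (hb2 : b2 ∈ V) (hb3 : b3 ∈ V)
    (h12 : a1 * b2 ∈ V) (h13 : a1 * b3 ∈ V) (h21 : a2 * b1 ∈ V) (h23 : a2 * b3 ∈ V) (h31 : a3 * b1 ∈ V)
    (h32 : a3 * b2 ∈ V) (hq2 : a1 * b1 + a2 * b2 ∈ V) (hq3 : a1 * b1 + a3 * b3 ∈ V) : a1 * b1 ∈ V := by
  have hq23 : a2 * b2 + a3 * b3 ∈ V := by
    have h := V.add_mem hq2 hq3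
    have e : a1 * b1 + a2 * b2 + (a1 * b1 + a3 * b3) = a2 * b2 + a3 * b3 := by
      linear_combination (a1 * b1) * h2
    rwa [e] at h
  have t1 : (a1 + a2) * (a2 + a3) * (b1 + b2 + b3) ∈ V := by
    refine ht _ _ _ (V.add_mem ha1 ha2) (V.add_mem ha2 ha3) (V.add_mem (V.add_mem hb1 hb2) hb3) ?_ ?_ ?_
    · have h := V.add_mem (V.add_mem ha12 ha13) (V.add_mem ha2 ha23)
      have e : a1 * a2 + a1 * a3 + (a2 + a2 * a3) = (a1 + a2) * (a2 + a3) := by linear_combination -hid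
      rwa [e] at h
    · have h := V.add_mem (V.add_mem hq2 (V.add_mem h12 h13)) (V.add_mem h21 h23)
      have e : a1 * b1 + a2 * b2 + (a1 * b2 + a1 * b3) + (a2 * b1 + a2 * b3) = (a1 + a2) * (b1 + b2 + b3) := by ring
      rwa [e] at h
    · have h := V.add_mem (V.add_mem hq23 (V.add_mem h21 h23)) (V.add_mem h31 h32)
      have e : a2 * b2 + a3 * b3 + (a2 * b1 + a2 * b3) + (a3 * b1 + a3 * b2) = (a2 + a3) * (b1 + b2 + b3) := by ring
      rwa [e] at h
  have t2 : (a1 + a2) * a3 * (b1 + b2) ∈ V := by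
    refine ht _ _ _ (V.add_mem ha1 ha2) ha3 (V.add_mem hb1 hb2) ?_ ?_ ?_
    · have h := V.add_mem ha13 ha23
      have e : a1 * a3 + a2 * a3 = (a1 + a2) * a3 := by ring
      rwa [e] at h
    · have h := V.add_mem hq2 (V.add_mem h12 h21)
      have e : a1 * b1 + a2 * b2 + (a1 * b2 + a2 * b1) = (a1 + a2) * (b1 + b2) := by ring
      rwa [e] at h
    · have h := V.add_mem h31 h32
      have e : a3 * b1 + a3 * b2 = a3 * (b1 + b2) := by ring
      rwa [e] at h
  have t3 : (a1 + a3) * a2 * (b1 + b3) ∈ V := by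
    refine ht _ _ _ (V.add_mem ha1 ha3) ha2 (V.add_mem hb1 hb3) ?_ ?_ ?_
    · have h := V.add_mem ha12 ha23
      have e : a1 * a2 + a2 * a3 = (a1 + a3) * a2 := by ring
      rwa [e] at h
    · have h := V.add_mem hq3 (V.add_mem h13 h31)
      have e : a1 * b1 + a3 * b3 + (a1 * b3 + a3 * b1) = (a1 + a3) * (b1 + b3) := by ring
      rwa [e] at h
    · have h := V.add_mem h21 h23
      have e : a2 * b1 + a2 * b3 = a2 * (b1 + b3) := by ring
      rwa [e] at h
  have t4 : (a2 + a3) * a1 * (b2 + b3) ∈ V := by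
    refine ht _ _ _ (V.add_mem ha2 ha3) ha1 (V.add_mem hb2 hb3) ?_ ?_ ?_
    · have h := V.add_mem ha12 ha13
      have e : a1 * a2 + a1 * a3 = (a2 + a3) * a1 := by ring
      rwa [e] at h
    · have h := V.add_mem hq23 (V.add_mem h23 h32)
      have e : a2 * b2 + a3 * b3 + (a2 * b3 + a3 * b2) = (a2 + a3) * (b2 + b3) := by ring
      rwa [e] at h
    · have h := V.add_mem h12 h13
      have e : a1 * b2 + a1 * b3 = a1 * (b2 + b3) := by ring
      rwa [e] at h
  have t5 : a2 * a3 * b1 ∈ V := ht _ _ _ ha2 ha3 hb1 ha23 h21 h31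
  have t6 : a1 * a3 * b2 ∈ V := ht _ _ _ ha1 ha3 hb2 ha13 h12 h32
  have t7 : a1 * a2 * b3 ∈ V := ht _ _ _ ha1 ha2 hb3 ha12 h13 h23
  have h := V.add_mem (V.add_mem (V.add_mem (V.add_mem t1 t2) (V.add_mem t3 t4)) (V.add_mem (V.add_mem t5 t6) t7))
    (V.add_mem h21 h23)
  have e : (a1 + a2) * (a2 + a3) * (b1 + b2 + b3) + (a1 + a2) * a3 * (b1 + b2) +
      ((a1 + a3) * a2 * (b1 + b3) + (a2 + a3) * a1 * (b2 + b3)) + (a2 * a3 * b1 + a1 * a3 * b2 + a1 * a2 * b3) +
      (a2 * b1 + a2 * b3) = a2 * b2 := by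
    linear_combination (b1 + b2 + b3) * hid + ((a1 * a2 + a1 * a3 + a2 + 2 * a2 * a3) * b1 +
      (a1 * a2 + 2 * a1 * a3 + a2 * a3) * b2 + (2 * a1 * a2 + a1 * a3 + a2 + a2 * a3) * b3) * h2
  rw [e] at h
  have h' := V.sub_mem hq2 h
  rwa [add_sub_cancel_right] at h'

section

variable {R : Type} [CommRing R] {V : AddSubgroup R} {M : Type} [DecidableEq M] {u v : M → R}

omit [DecidableEq M] in
theorem cross_sum (hc : ∀ m l, m ≠ l → u m * v l ∈ V) {P Q : Finset M} (h : Disjoint P Q) :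
    (∑ m ∈ P, u m) * ∑ m ∈ Q, v m ∈ V := by
  rw [Finset.sum_mul_sum]
  exact V.sum_mem fun i hi => V.sum_mem fun j hj => hc i j fun e =>
    Finset.disjoint_left.1 h hi (e ▸ hj)

theorem diag_sum (hc : ∀ m l, m ≠ l → u m * v l ∈ V) (P : Finset M) :
    (∑ m ∈ P, u m) * (∑ m ∈ P, v m) - ∑ m ∈ P, u m * v m ∈ V := by
  rw [Finset.sum_mul_sum, ← Finset.sum_sub_distrib]
  refine V.sum_mem fun i hi => ?_
  rw [← Finset.add_sum_erase P (fun j => u i * v j) hi, add_sub_cancel_left]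
  exact V.sum_mem fun j hj => hc i j (Finset.ne_of_mem_erase hj).symm

theorem inter_mem (h2 : (2 : R) = 0) (hid : ∀ x : R, x * x = x) (ht : Tri V) {A B : Subring R}
    (hA : ∀ f ∈ A, f ∈ V) (hB : ∀ f ∈ B, f ∈ V) (hu : ∀ m, u m ∈ A) (hv : ∀ m, v m ∈ B)
    (hc : ∀ m l, m ≠ l → u m * v l ∈ V) {S T : Finset M} (hS : ∑ m ∈ S, u m * v m ∈ V)
    (hT : ∑ m ∈ T, u m * v m ∈ V) : ∑ m ∈ S ∩ T, u m * v m ∈ V := by
  have d12 : Disjoint (S ∩ T) (S \ T) := by
    rw [Finset.disjoint_left]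
    intro x hx hy
    exact (Finset.mem_sdiff.1 hy).2 (Finset.mem_inter.1 hx).2
  have d13 : Disjoint (S ∩ T) (T \ S) := by
    rw [Finset.disjoint_left]
    intro x hx hy
    exact (Finset.mem_sdiff.1 hy).2 (Finset.mem_inter.1 hx).1
  have d23 : Disjoint (S \ T) (T \ S) := by
    rw [Finset.disjoint_left]
    intro x hx hy
    exact (Finset.mem_sdiff.1 hx).2 (Finset.mem_sdiff.1 hy).1
  have hAs : ∀ P : Finset M, ∑ m ∈ P, u m ∈ A := fun P => A.sum_mem fun m _ => hu m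
  have hBs : ∀ P : Finset M, ∑ m ∈ P, v m ∈ B := fun P => B.sum_mem fun m _ => hv m
  have eS : ∑ m ∈ S, u m * v m = ∑ m ∈ S ∩ T, u m * v m + ∑ m ∈ S \ T, u m * v m := by
    rw [← Finset.sum_union d12]
    congr 1
    ext x
    simp only [Finset.mem_union, Finset.mem_inter, Finset.mem_sdiff]
    tauto
  have eT : ∑ m ∈ T, u m * v m = ∑ m ∈ S ∩ T, u m * v m + ∑ m ∈ T \ S, u m * v m := by
    rw [← Finset.sum_union d13]
    congr 1
    ext x
    simp only [Finset.mem_union, Finset.mem_inter, Finset.mem_sdiff]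
    tauto
  have hq2 : (∑ m ∈ S ∩ T, u m) * (∑ m ∈ S ∩ T, v m) + (∑ m ∈ S \ T, u m) * (∑ m ∈ S \ T, v m) ∈ V := by
    have h := V.add_mem (V.add_mem (diag_sum hc (S ∩ T)) (diag_sum hc (S \ T))) hS
    rw [eS] at h
    have e : ∀ x y p q : R, x - p + (y - q) + (p + q) = x + y := by intros; ring
    rwa [e] at h
  have hq3 : (∑ m ∈ S ∩ T, u m) * (∑ m ∈ S ∩ T, v m) + (∑ m ∈ T \ S, u m) * (∑ m ∈ T \ S, v m) ∈ V := by
    have h := V.add_mem (V.add_mem (diag_sum hc (S ∩ T)) (diag_sum hc (T \ S))) hT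
    rw [eT] at h
    have e : ∀ x y p q : R, x - p + (y - q) + (p + q) = x + y := by intros; ring
    rwa [e] at h
  have h := gadget h2 ht (hid _) (hA _ (hAs (S ∩ T))) (hA _ (hAs (S \ T))) (hA _ (hAs (T \ S)))
    (hA _ (A.mul_mem (hAs _) (hAs _))) (hA _ (A.mul_mem (hAs _) (hAs _))) (hA _ (A.mul_mem (hAs _) (hAs _)))
    (hB _ (hBs (S ∩ T))) (hB _ (hBs (S \ T))) (hB _ (hBs (T \ S)))
    (cross_sum hc d12) (cross_sum hc d13) (cross_sum hc d12.symm) (cross_sum hc d23) (cross_sum hc d13.symm)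
    (cross_sum hc d23.symm) hq2 hq3
  have h' := V.sub_mem h (diag_sum hc (S ∩ T))
  rwa [sub_sub_cancel] at h'

/-- Logarithmically many products of sums give all products. -/
theorem ring_main [Fintype M] (h2 : (2 : R) = 0) (hid : ∀ x : R, x * x = x) (ht : Tri V) {A B : Subring R}
    (hA : ∀ f ∈ A, f ∈ V) (hB : ∀ f ∈ B, f ∈ V) (hu : ∀ m, u m ∈ A) (hv : ∀ m, v m ∈ B)
    (hc : ∀ m l, m ≠ l → u m * v l ∈ V) {b : ℕ} (e : M → Fin b → Bool) (he : Function.Injective e)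
    (h0 : (∑ m, u m) * (∑ m, v m) ∈ V)
    (hb : ∀ p, (∑ m with e m p = true, u m) * (∑ m with e m p = true, v m) ∈ V) (m : M) : u m * v m ∈ V := by
  have g0 : ∑ m, u m * v m ∈ V := by
    have h := V.sub_mem h0 (diag_sum hc Finset.univ)
    rwa [sub_sub_cancel] at h
  have g1 : ∀ p, ∑ m with e m p = true, u m * v m ∈ V := by
    intro p
    have h := V.sub_mem (hb p) (diag_sum hc (Finset.univ.filter fun m => e m p = true))
    rwa [sub_sub_cancel] at h
  have g2 : ∀ p, ∀ c : Bool, ∑ m with e m p = c, u m * v m ∈ V := by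
    intro p c
    cases c
    · have h := V.sub_mem g0 (g1 p)
      have e1 : (∑ m, u m * v m) - (∑ m with e m p = true, u m * v m) = ∑ m with e m p = false, u m * v m := by
        rw [sub_eq_iff_eq_add, ← Finset.sum_filter_add_sum_filter_not Finset.univ (fun m => e m p = false)]
        congr 1
        refine Finset.sum_congr ?_ fun _ _ => rfl
        ext x
        simp
      rwa [e1] at h
    · exact g1 p
  have key : ∀ Q : Finset (Fin b), ∑ l with ∀ p ∈ Q, e l p = e m p, u l * v l ∈ V := by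
    intro Q
    induction Q using Finset.induction with
    | empty => simpa using g0
    | insert p Q _ ih =>
      have h := inter_mem h2 hid ht hA hB hu hv hc (g2 p (e m p)) ih
      have e1 : (Finset.univ.filter fun l => e l p = e m p) ∩ (Finset.univ.filter fun l => ∀ q ∈ Q, e l q = e m q) =
          Finset.univ.filter fun l => ∀ q ∈ insert p Q, e l q = e m q := by
        ext x
        simp
      rwa [e1] at h
  have h := key Finset.univ
  have e1 : (Finset.univ.filter fun l => ∀ p ∈ (Finset.univ : Finset (Fin b)), e l p = e m p) = {m} := by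
    ext x
    simp only [Finset.mem_filter, Finset.mem_univ, true_and, true_implies, Finset.mem_singleton]
    constructor
    · intro h
      exact he (funext h)
    · rintro rfl _
      rfl
  rwa [e1, Finset.sum_singleton] at h

end

end H99E
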